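import Pool.Agent.Q33.BinSum

set_option autoImplicit false

namespace Pool.Agent.Results.MP_7c66d8_nt.FourthPowers

open Finset

/-- For every `n ≥ 1`, `2n` divides `∑_{k<n} (3k+2) f_k^{(4)}`, where
`f_k^{(4)} = ∑_{j ≤ k} C(k,j)^4`. -/
theorem result : ∀ n : ℕ, 1 ≤ n →
    2 * n ∣ ∑ k ∈ range n, (3 * k + 2) * ∑ j ∈ range (k + 1), k.choose j ^ 4 := by
  intro n hn
  have h := Pool.Agent.Q33.BinSum.main 2 n 4 (by norm_num) hn
  have e : ((∑ k ∈ range n, (3 * k + 2) * ∑ j ∈ range (k + 1), k.choose j ^ 4 : ℕ) : ℤ)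
      = ∑ k ∈ range n, (-1) ^ (4 * k) * (((((2 : ℕ) : ℤ) + 1) * k + (2 : ℕ)) *
        (Pool.Agent.Q33.BinSum.M 2 k 4 : ℤ)) := by
    push_cast
    refine Finset.sum_congr rfl fun k _ => ?_
    rw [Pool.Agent.Q33.BinSum.M_two]
    have : (-1 : ℤ) ^ (4 * k) = 1 := by rw [pow_mul]; norm_num
    rw [this]
    push_cast
    ring
  rw [← e] at h
  exact_mod_cast h

end Pool.Agent.Results.MP_7c66d8_nt.FourthPowers
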